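import Pool.Agent.SGL.StmtsA

/-!
# Squad SGL (MP_41797f_co), row COL

A non-facial triangle separates the two apexes of its edges.
-/

noncomputable section

namespace Pool.Agent.SGL.H46

open Pool.Agent.SGE Pool.Agent.SGP Pool.Agent.SGY Pool.Agent.SGD

theorem z2_add_eq_zero {a b : ZMod 2} (h : a + b = 0) : a = b := by
  revert a b
  decide

theorem chain_const {V : Type} {R : V → V → Prop} {g : V → ZMod 2}
    (hR : ∀ p q, R p q → g p = g q) :
    ∀ (L : List V) (v : V), (v :: L).IsChain R → ∀ t, t ∈ v :: L → g t = g v := by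
  intro L
  induction L with
  | nil =>
    intro v _ t ht
    have : t = v := by simpa using ht
    rw [this]
  | cons a L ih =>
    intro v hc t ht
    rw [List.isChain_cons_cons] at hc
    rcases List.mem_cons.1 ht with h | h
    · rw [h]
    · rw [ih a hc.2 t h, hR v a hc.1]

/-- the sum of the indicator of two different points is zero -/
theorem sum_two {V : Type} [Fintype V] {f : V → ZMod 2} {r s : V} (hrs : r ≠ s)
    (h1 : f r = 1) (h2 : f s = 1) (h0 : ∀ q, q ≠ r → q ≠ s → f q = 0) : ∑ q, f q = 0 := by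
  classical
  have e : ∀ q, f q = (if q = r then 1 else 0) + (if q = s then 1 else 0) := by
    intro q
    by_cases hr : q = r
    · subst hr
      rw [if_pos rfl, if_neg hrs, h1, add_zero]
    · by_cases hs : q = s
      · subst hs
        rw [if_neg hr, if_pos rfl, h2, zero_add]
      · rw [if_neg hr, if_neg hs, h0 q hr hs, add_zero]
  rw [Finset.sum_congr rfl (fun q _ => e q), Finset.sum_add_distrib]
  simp
  decide

theorem col : ColStmt := by
  classical
  intro V _ E Φ x y z hS hN
  obtain ⟨exy, eyz, ezx, hf1, hf2⟩ := hN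
  have hxy : x ≠ y := fun h => hS.irr x (by rw [← h] at exy; exact exy)
  have hyz : y ≠ z := fun h => hS.irr y (by rw [← h] at eyz; exact eyz)
  have hzx : z ≠ x := fun h => hS.irr z (by rw [← h] at ezx; exact ezx)
  -- membership
  let M : V → Prop := fun p => p = x ∨ p = y ∨ p = z
  let Z : V → V → ZMod 2 := fun p q => if p ≠ q ∧ M p ∧ M q then 1 else 0
  have hZ1 : ∀ p q, p ≠ q → M p → M q → Z p q = 1 := by
    intro p q h1 h2 h3
    exact if_pos ⟨h1, h2, h3⟩
  have hZ0 : ∀ p q, ¬ (p ≠ q ∧ M p ∧ M q) → Z p q = 0 := by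
    intro p q h
    exact if_neg h
  have Mx : M x := Or.inl rfl
  have My : M y := Or.inr (Or.inl rfl)
  have Mz : M z := Or.inr (Or.inr rfl)
  have hsym : ∀ u v, Z u v = Z v u := by
    intro u v
    by_cases h : u ≠ v ∧ M u ∧ M v
    · rw [hZ1 u v h.1 h.2.1 h.2.2, hZ1 v u h.1.symm h.2.2 h.2.1]
    · rw [hZ0 u v h, hZ0 v u (fun h' => h ⟨h'.1.symm, h'.2.2, h'.2.1⟩)]
  have hsup : ∀ u v, Z u v ≠ 0 → E u v := by
    intro u v h
    by_cases h' : u ≠ v ∧ M u ∧ M v
    · obtain ⟨h1, h2, h3⟩ := h'
      rcases h2 with h2 | h2 | h2 <;> rcases h3 with h3 | h3 | h3 <;> subst h2 <;> subst h3 <;>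
        first
          | exact absurd rfl h1
          | exact exy
          | exact eyz
          | exact ezx
          | exact hS.sym _ _ exy
          | exact hS.sym _ _ eyz
          | exact hS.sym _ _ ezx
    · exact absurd (hZ0 u v h') h
  have heven : ∀ u, ∑ v, Z u v = 0 := by
    intro u
    by_cases hu : M u
    · rcases hu with h | h | h
      · subst h
        refine sum_two hyz (hZ1 _ _ hxy Mx My) (hZ1 _ _ hzx.symm Mx Mz) ?_
        intro q h1 h2
        refine hZ0 _ _ ?_
        rintro ⟨a1, -, a3⟩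
        rcases a3 with a3 | a3 | a3
        · exact a1 a3.symm
        · exact h1 a3
        · exact h2 a3
      · subst h
        refine sum_two hzx (hZ1 _ _ hyz My Mz) (hZ1 _ _ hxy.symm My Mx) ?_
        intro q h1 h2
        refine hZ0 _ _ ?_
        rintro ⟨a1, -, a3⟩
        rcases a3 with a3 | a3 | a3
        · exact h2 a3
        · exact a1 a3.symm
        · exact h1 a3
      · subst h
        refine sum_two hxy (hZ1 _ _ hzx Mz Mx) (hZ1 _ _ hyz.symm Mz My) ?_
        intro q h1 h2
        refine hZ0 _ _ ?_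
        rintro ⟨a1, -, a3⟩
        rcases a3 with a3 | a3 | a3
        · exact h1 a3
        · exact h2 a3
        · exact a1 a3.symm
    · refine Finset.sum_eq_zero fun v _ => hZ0 _ _ fun h => hu h.2.1
  obtain ⟨A, hA, hAZ⟩ := hS.hom Z hsym hsup heven
  have hsymA : ∀ w, ¬ M w → ∀ q, A w q = A q w := by
    intro w hw q
    refine z2_add_eq_zero ?_
    rw [← hAZ w q]
    exact hZ0 _ _ fun h => hw h.2.1
  have hconst : ∀ w, ¬ M w → ∀ p q, Φ w p q → A w p = A w q := by
    intro w hw p q h
    rw [hA w p q h, hA p q w (hS.rot _ _ _ h), ← hsymA w hw q]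
  have hloc : ∀ w, ¬ M w → ∀ p t, E w p → E w t → A w t = A w p := by
    intro w hw p t hp ht
    obtain ⟨l, h1, -, h3⟩ := hS.cyc w p hp
    have ht' : t ∈ p :: l := (h3 t).1 ht
    have ht2 : t ∈ p :: (l ++ [p]) := by
      rcases List.mem_cons.1 ht' with h | h
      · rw [h]
        exact List.mem_cons_self
      · exact List.mem_cons_of_mem _ (List.mem_append_left _ h)
    exact chain_const (R := Φ w) (g := fun t => A w t) (hconst w hw) (l ++ [p]) p h1 t ht2
  let χ : V → ZMod 2 := fun w => if h : ∃ p, E w p then A w h.choose else 0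
  have hχ : ∀ w, ¬ M w → ∀ p, E w p → χ w = A w p := by
    intro w hw p hp
    have h : ∃ p, E w p := ⟨p, hp⟩
    have e : χ w = A w h.choose := dif_pos h
    rw [e]
    exact hloc w hw p _ hp h.choose_spec
  refine ⟨χ, ?_, ?_⟩
  · intro p q hpq p1 p2 p3 q1 q2 q3
    have hp : ¬ M p := fun h => by
      rcases h with h | h | h
      · exact p1 h
      · exact p2 h
      · exact p3 h
    have hq : ¬ M q := fun h => by
      rcases h with h | h | h
      · exact q1 h
      · exact q2 h
      · exact q3 h
    rw [hχ p hp q hpq, hχ q hq p (hS.sym _ _ hpq)]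
    exact hsymA p hp q
  · intro u v hu hv huv
    have r1 := hS.rot _ _ _ hu
    have r2 := hS.rot _ _ _ r1
    have s1 := hS.rot _ _ _ hv
    have s2 := hS.rot _ _ _ s1
    have Mu : ¬ M u := fun h => by
      rcases h with h | h | h
      · rw [h] at r2
        exact hS.irr _ (hS.fe _ _ _ r2)
      · rw [h] at r1
        exact hS.irr _ (hS.fe _ _ _ r1)
      · rw [h] at hu
        exact hf1 hu
    have Mv : ¬ M v := fun h => by
      rcases h with h | h | h
      · rw [h] at s1
        exact hS.irr _ (hS.fe _ _ _ s1)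
      · rw [h] at s2
        exact hS.irr _ (hS.fe _ _ _ s2)
      · rw [h] at hv
        exact hf2 hv
    have e1 : χ u = A x y := by
      rw [hχ u Mu x (hS.fe _ _ _ r2)]
      exact hA _ _ _ r2
    have e2 : χ v = A y x := by
      rw [hχ v Mv y (hS.fe _ _ _ s2)]
      exact hA _ _ _ s2
    have e3 : A x y + A y x = 1 := by
      rw [← hAZ x y]
      exact hZ1 _ _ hxy Mx My
    rw [← e1, ← e2, huv] at e3
    revert e3
    generalize χ v = c
    revert c
    decide

end Pool.Agent.SGL.H46
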